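import Mathlib
import Pool.Agent.H62LR.Small

/-!
Sign changes, and limits of real-rooted polynomials.
-/

open Polynomial Finset Filter Topology

namespace Pool.Agent.TP34

open Pool.Agent.H62LR

/-- `n` sign changes of `∑_{k ≤ n} b_k x^k` on the negative half line -/
def Alt (n : ℕ) (b : ℕ → ℝ) : Prop :=
  ∃ y : ℕ → ℝ, 0 < y 0 ∧ (∀ i < n, y i < y (i + 1)) ∧
    ∀ i ≤ n, 0 < (-1 : ℝ) ^ i * ∑ k ∈ range (n + 1), b k * (-(y i)) ^ k

lemma y_mono {n : ℕ} {y : ℕ → ℝ} (h : ∀ i < n, y i < y (i + 1)) {i j : ℕ} (hij : i ≤ j) (hj : j ≤ n) :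
    y i ≤ y j := by
  induction j, hij using Nat.le_induction with
  | base => exact le_rfl
  | succ j hij ih => exact (ih (by omega)).trans (h j (by omega)).le

lemma Alt.pf {n : ℕ} {b : ℕ → ℝ} (hb : ∀ k ≤ n, 0 < b k) (h : Alt n b) : PF n b := by
  obtain ⟨y, _, hy1, hy2⟩ := h
  set q : ℝ → ℝ := fun t => (poly n b).eval (-t) with hq
  have hqc : Continuous q := (poly n b).continuous.comp continuous_neg
  have hqs : ∀ i ≤ n, 0 < (-1 : ℝ) ^ i * q (y i) := by
    intro i hi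
    have := hy2 i hi
    rw [hq]
    simp only [eval_poly]
    exact this
  have hroot : ∀ i < n, ∃ t, y i < t ∧ t < y (i + 1) ∧ q t = 0 := by
    intro i hi
    have h1 := hqs i hi.le
    have h2 := hqs (i + 1) hi
    have h3 := hy1 i hi
    rcases neg_one_pow_eq_or ℝ i with h4 | h4
    · rw [h4, one_mul] at h1
      rw [pow_succ, h4, one_mul] at h2
      obtain ⟨t, ht, ht0⟩ := intermediate_value_Ioo' h3.le hqc.continuousOn
        (show (0 : ℝ) ∈ Set.Ioo (q (y (i + 1))) (q (y i)) from ⟨by linarith, h1⟩)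
      exact ⟨t, ht.1, ht.2, ht0⟩
    · rw [h4] at h1
      rw [pow_succ, h4] at h2
      obtain ⟨t, ht, ht0⟩ := intermediate_value_Ioo h3.le hqc.continuousOn
        (show (0 : ℝ) ∈ Set.Ioo (q (y i)) (q (y (i + 1))) from ⟨by linarith, by linarith⟩)
      exact ⟨t, ht.1, ht.2, ht0⟩
  choose! t ht1 ht2 ht3 using hroot
  have htlt : ∀ i j, i < j → j < n → t i < t j := by
    intro i j hij hj
    have h1 := ht2 i (by omega)
    have h2 := ht1 j hj
    have h3 := y_mono hy1 (show i + 1 ≤ j by omega) hj.le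
    linarith
  refine pf_of_roots hb ((range n).image fun i => -t i) ?_ ?_
  · rw [card_image_of_injOn, card_range]
    intro i hi j hj hij
    rw [mem_coe, mem_range] at hi hj
    simp only [neg_inj] at hij
    rcases lt_trichotomy i j with h | h | h
    · exact absurd hij (htlt i j h hj).ne
    · exact h
    · exact absurd hij (htlt j i h hi).ne'
  · intro x hx
    obtain ⟨i, hi, rfl⟩ := mem_image.1 hx
    exact ht3 i (mem_range.1 hi)

lemma alt_prod (R : Finset ℝ) : (∀ ξ ∈ R, 0 < ξ) → ∀ B : ℝ, 0 < B → (∀ ξ ∈ R, ξ < B) →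
    ∃ y : ℕ → ℝ, 0 < y 0 ∧ (∀ i < R.card, y i < y (i + 1)) ∧ (∀ i ≤ R.card, y i < B) ∧
      ∀ i ≤ R.card, 0 < (-1 : ℝ) ^ i * ∏ ξ ∈ R, (ξ - y i) := by
  induction R using Finset.induction_on_max with
  | empty =>
    intro _ B hB _
    refine ⟨fun _ => B / 2, by simpa using hB, fun i hi => by simp at hi, fun i _ => by
      simp only; linarith, fun i hi => ?_⟩
    rw [card_empty, Nat.le_zero] at hi
    subst hi
    simp
  | insert M R hM ih =>
    intro hpos B hB hlt
    have hMR : M ∉ R := fun h => lt_irrefl _ (hM M h)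
    have hM0 : 0 < M := hpos M (mem_insert_self _ _)
    have hMB : M < B := hlt M (mem_insert_self _ _)
    obtain ⟨y, hy0, hy1, hy2, hy3⟩ := ih (fun ξ hξ => hpos ξ (mem_insert_of_mem hξ)) M hM0 hM
    rw [card_insert_of_notMem hMR]
    refine ⟨fun i => if i ≤ R.card then y i else (M + B) / 2, ?_, ?_, ?_, ?_⟩
    · simp [hy0]
    · intro i hi
      have hi' : i ≤ R.card := by omega
      simp only [if_pos hi']
      split_ifs with h
      · exact hy1 i (by omega)
      · have := hy2 i hi'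
        linarith
    · intro i _
      simp only
      split_ifs with h
      · have := hy2 i h
        linarith
      · linarith
    · intro i hi
      rw [prod_insert hMR]
      simp only
      split_ifs with h
      · have h1 := hy3 i h
        have h2 := hy2 i h
        have h3 : (-1 : ℝ) ^ i * ((M - y i) * ∏ ξ ∈ R, (ξ - y i)) =
            (M - y i) * ((-1 : ℝ) ^ i * ∏ ξ ∈ R, (ξ - y i)) := by ring
        rw [h3]
        exact mul_pos (by linarith) h1
      · have hi2 : i = R.card + 1 := by omega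
        have h1 : (-1 : ℝ) ^ R.card * ∏ ξ ∈ R, (ξ - (M + B) / 2) =
            ∏ ξ ∈ R, (-(ξ - (M + B) / 2)) := by
          rw [← prod_const, ← prod_mul_distrib]
          exact prod_congr rfl fun ξ _ => by ring
        have h2 : 0 < ∏ ξ ∈ R, (-(ξ - (M + B) / 2)) := by
          refine prod_pos fun ξ hξ => ?_
          have := hM ξ hξ
          linarith
        have h3 : (-1 : ℝ) ^ i * ((M - (M + B) / 2) * ∏ ξ ∈ R, (ξ - (M + B) / 2)) =
            ((M + B) / 2 - M) * ((-1 : ℝ) ^ R.card * ∏ ξ ∈ R, (ξ - (M + B) / 2)) := by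
          rw [hi2, pow_succ]; ring
        rw [h3, h1]
        exact mul_pos (by linarith) h2

/-- a real-rooted polynomial without double zero has `n` sign changes -/
lemma alt_of_simple {n : ℕ} {a : ℕ → ℝ} (hPF : PF n a)
    (hs : ∀ x : ℝ, x < 0 → ∑ k ∈ range (n + 1), a k * x ^ k = 0 →
      ∑ k ∈ range (n + 1), (k : ℝ) * (a k * x ^ k) = 0 → False) : Alt n a := by
  set p : ℝ[X] := poly n a with hp
  have hdeg : p.natDegree = n := natDegree_poly (hPF.1 n le_rfl).ne'
  have hp0 : p ≠ 0 := by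
    intro h
    have := congrArg (fun q => q.coeff 0) h
    simp only [hp, coeff_poly, if_pos (Nat.zero_le n), coeff_zero] at this
    have h2 := hPF.1 0 (Nat.zero_le _)
    linarith
  have hcoef : ∀ k, 0 ≤ p.coeff k := by
    intro k
    rw [hp, coeff_poly]
    split_ifs with h
    · exact (hPF.1 k h).le
    · exact le_rfl
  have hneg : ∀ x, p.eval x = 0 → x < 0 := by
    intro x hx
    rcases lt_trichotomy x 0 with h | h | h
    · exact h
    · exfalso
      rw [h, ← coeff_zero_eq_eval_zero, hp, coeff_poly, if_pos (Nat.zero_le _)] at hx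
      exact (hPF.1 0 (Nat.zero_le _)).ne' hx
    · exact absurd hx (Pool.Agent.H49.PowerForm.eval_pos hp0 hcoef h).ne'
  have hder : ∀ x, p.eval x = 0 → p.derivative.eval x ≠ 0 := by
    intro x hx h1
    refine hs x (hneg x hx) ?_ ?_
    · rw [← eval_poly]; exact hx
    · have : ∑ k ∈ range (n + 1), (k : ℝ) * (a k * x ^ k) = x * p.derivative.eval x := by
        rw [hp]
        unfold poly
        rw [derivative_sum, eval_finsetSum, Finset.mul_sum]
        refine Finset.sum_congr rfl (fun k _ => ?_)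
        rw [derivative_monomial, eval_monomial]
        rcases Nat.eq_zero_or_pos k with h | h
        · subst h; simp
        · obtain ⟨j, rfl⟩ := Nat.exists_eq_succ_of_ne_zero h.ne'
          rw [Nat.succ_sub_one, pow_succ]
          ring
      rw [this, h1, mul_zero]
  have hsp := Pool.Agent.H49.RR.RealRooted.splits hPF.realRooted
  have hnodup : p.roots.Nodup := by
    rw [Multiset.nodup_iff_count_le_one]
    intro x
    rw [count_roots]
    by_contra hc
    push Not at hc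
    have h1 := (one_lt_rootMultiplicity_iff_isRoot hp0).1 hc
    exact hder x h1.1 h1.2
  set R : Finset ℝ := p.roots.toFinset with hR
  have hRcard : R.card = n := by
    rw [hR, Multiset.toFinset_card_of_nodup hnodup, ← hsp.natDegree_eq_card_roots, ← hp, hdeg]
  have hRroot : ∀ x ∈ R, p.eval x = 0 := by
    intro x hx
    rw [hR, Multiset.mem_toFinset, mem_roots hp0] at hx
    exact hx
  have hRneg : ∀ x ∈ R, x < 0 := fun x hx => hneg x (hRroot x hx)
  set R' : Finset ℝ := R.image (fun x => -x) with hR'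
  have hinj : Set.InjOn (fun x : ℝ => -x) R := fun x _ y _ h => neg_injective h
  have hR'card : R'.card = n := by rw [hR', card_image_of_injOn hinj, hRcard]
  obtain ⟨y, hy0, hy1, _, hy3⟩ := alt_prod R' (by
    intro ξ hξ
    obtain ⟨x, hx, rfl⟩ := mem_image.1 hξ
    have := hRneg x hx
    linarith) (R'.sum (fun ξ => |ξ|) + 1) (by positivity) (by
    intro ξ hξ
    have h1 : |ξ| ≤ R'.sum (fun ξ => |ξ|) := single_le_sum (f := fun ξ => |ξ|) (fun _ _ => abs_nonneg _) hξ
    have h2 := le_abs_self ξ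
    linarith)
  rw [hR'card] at hy1 hy3
  refine ⟨y, hy0, hy1, fun i hi => ?_⟩
  have h1 := hy3 i hi
  have h2 : ∏ ξ ∈ R', (ξ - y i) = ∏ x ∈ R, (-(y i) - x) := by
    rw [hR', prod_image hinj]
    exact prod_congr rfl fun x _ => by ring
  have h3 : ∑ k ∈ range (n + 1), a k * (-(y i)) ^ k = a n * ∏ x ∈ R, (-(y i) - x) := by
    rw [← eval_poly, ← hp]
    have h4 : p = C (p.leadingCoeff) * ((p.roots).map (fun x => X - C x)).prod := hsp.eq_prod_roots
    have h5 : p.leadingCoeff = a n := by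
      rw [leadingCoeff, hdeg, hp, coeff_poly, if_pos le_rfl]
    rw [h4, h5, eval_mul, eval_C, eval_multiset_prod, Multiset.map_map]
    congr 1
    rw [Finset.prod_eq_multiset_prod, hR, Multiset.toFinset_val, hnodup.dedup]
    congr 1
    refine Multiset.map_congr rfl fun x _ => ?_
    simp
  rw [h3, ← h2]
  have h4 := hPF.1 n le_rfl
  have h5 : (-1 : ℝ) ^ i * (a n * ∏ ξ ∈ R', (ξ - y i)) = a n * ((-1 : ℝ) ^ i * ∏ ξ ∈ R', (ξ - y i)) := by
    ring
  rw [h5]
  exact mul_pos h4 h1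

/-- lower bound off the negative axis -/
lemma lower2 {n : ℕ} {a : ℕ → ℝ} (ha : PF n a) {z : ℂ} (hz : z ≠ 0) :
    ((‖z‖ + z.re) / (2 * ‖z‖)) ^ n * (∑ k ∈ range (n + 1), a k * ‖z‖ ^ k) ^ 2 ≤ ‖ev n a z‖ ^ 2 := by
  obtain ⟨m, hcard, hpos, hprod⟩ := ha.exists_roots
  have hr : 0 < ‖z‖ := norm_pos_iff.2 hz
  set c : ℝ := (‖z‖ + z.re) / (2 * ‖z‖) with hc
  have hc0 : 0 ≤ c := by
    have := Complex.abs_re_le_norm z
    have h2 := (abs_le.1 this).1
    exact div_nonneg (by linarith) (by positivity)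
  have h1 : ∀ m : Multiset ℝ, (∀ ρ ∈ m, 0 < ρ) →
      c ^ (Multiset.card m) * (((m.map (fun ρ => (1 : ℝ[X]) + C ρ * X)).prod).eval ‖z‖) ^ 2 ≤
        ‖aeval z ((m.map (fun ρ => (1 : ℝ[X]) + C ρ * X)).prod)‖ ^ 2 := by
    intro m
    induction m using Multiset.induction_on with
    | empty => intro _; simp
    | cons ρ m ih =>
      intro h
      have h2 := ih (fun x hx => h x (Multiset.mem_cons_of_mem hx))
      have hρ := h ρ (Multiset.mem_cons_self _ _)
      rw [Multiset.card_cons, Multiset.map_cons, Multiset.prod_cons, map_mul, norm_mul, pow_succ,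
        eval_mul]
      have h3 : c * (1 + ρ * ‖z‖) ^ 2 ≤ ‖aeval z ((1 : ℝ[X]) + C ρ * X)‖ ^ 2 := by
        have e1 : aeval z ((1 : ℝ[X]) + C ρ * X) = 1 + ρ * z := by simp
        have e2 : ‖(1 : ℂ) + ρ * z‖ ^ 2 = 1 + 2 * ρ * z.re + ρ ^ 2 * ‖z‖ ^ 2 := by
          rw [← Complex.normSq_eq_norm_sq, ← Complex.normSq_eq_norm_sq, Complex.normSq_apply,
            Complex.normSq_apply]
          simp
          ring
        rw [e1, e2]
        have e3 : 1 + 2 * ρ * z.re + ρ ^ 2 * ‖z‖ ^ 2 - c * (1 + ρ * ‖z‖) ^ 2 =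
            (1 - c) * (1 - ρ * ‖z‖) ^ 2 := by
          rw [hc]
          field_simp
          ring
        have e4 : 0 ≤ 1 - c := by
          have := Complex.re_le_norm z
          rw [hc, sub_nonneg, div_le_one (by positivity)]
          linarith
        have e5 := mul_nonneg e4 (sq_nonneg (1 - ρ * ‖z‖))
        linarith
      have e6 : ((1 : ℝ[X]) + C ρ * X).eval ‖z‖ = 1 + ρ * ‖z‖ := by simp
      rw [e6]
      calc c ^ Multiset.card m * c * ((1 + ρ * ‖z‖) *
            ((m.map (fun ρ => (1 : ℝ[X]) + C ρ * X)).prod).eval ‖z‖) ^ 2 =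
          (c * (1 + ρ * ‖z‖) ^ 2) * (c ^ Multiset.card m *
            (((m.map (fun ρ => (1 : ℝ[X]) + C ρ * X)).prod).eval ‖z‖) ^ 2) := by ring
        _ ≤ ‖aeval z ((1 : ℝ[X]) + C ρ * X)‖ ^ 2 *
            ‖aeval z ((m.map (fun ρ => (1 : ℝ[X]) + C ρ * X)).prod)‖ ^ 2 :=
          mul_le_mul h3 h2 (by positivity) (by positivity)
        _ = _ := by ring
  have h2 := h1 m hpos
  rw [hcard] at h2
  have h3 : ev n a z = (a 0 : ℂ) * aeval z ((m.map (fun ρ => (1 : ℝ[X]) + C ρ * X)).prod) := by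
    rw [← aeval_poly, hprod, map_mul, aeval_C]
    rfl
  have h4 : ∑ k ∈ range (n + 1), a k * ‖z‖ ^ k =
      a 0 * ((m.map (fun ρ => (1 : ℝ[X]) + C ρ * X)).prod).eval ‖z‖ := by
    rw [← eval_poly, hprod, eval_mul, eval_C]
  rw [h3, h4, norm_mul, Complex.norm_real, mul_pow, mul_pow, Real.norm_eq_abs, sq_abs]
  calc c ^ n * (a 0 ^ 2 * ((m.map (fun ρ => (1 : ℝ[X]) + C ρ * X)).prod).eval ‖z‖ ^ 2) =
      a 0 ^ 2 * (c ^ n * ((m.map (fun ρ => (1 : ℝ[X]) + C ρ * X)).prod).eval ‖z‖ ^ 2) := by ring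
    _ ≤ _ := mul_le_mul_of_nonneg_left h2 (sq_nonneg _)

/-- limits of real-rooted polynomials with nonnegative coefficients -/
lemma ev_ne_zero_of_lim {n : ℕ} {A : ℕ → ℕ → ℝ} (hA : ∀ i, PF n (A i)) {B : ℕ → ℝ}
    (hlim : ∀ k ≤ n, Tendsto (fun i => A i k) atTop (𝓝 (B k))) (hB : ∃ k ≤ n, 0 < B k) {z : ℂ}
    (hz : 0 < z.im) : ev n B z ≠ 0 := by
  have hz0 : z ≠ 0 := by
    rintro rfl
    simp at hz
  have hr : 0 < ‖z‖ := norm_pos_iff.2 hz0
  have hB0 : ∀ k ≤ n, 0 ≤ B k := fun k hk =>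
    ge_of_tendsto' (hlim k hk) fun i => ((hA i).1 k hk).le
  have h1 : Tendsto (fun i => ((‖z‖ + z.re) / (2 * ‖z‖)) ^ n *
      (∑ k ∈ range (n + 1), A i k * ‖z‖ ^ k) ^ 2) atTop
      (𝓝 (((‖z‖ + z.re) / (2 * ‖z‖)) ^ n * (∑ k ∈ range (n + 1), B k * ‖z‖ ^ k) ^ 2)) := by
    refine ((tendsto_finsetSum _ fun k hk => ?_).pow 2).const_mul _
    exact (hlim k (by simpa [Nat.lt_succ_iff] using hk)).mul_const _
  have h2 : Tendsto (fun i => ‖ev n (A i) z‖ ^ 2) atTop (𝓝 (‖ev n B z‖ ^ 2)) := by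
    refine (Tendsto.norm ?_).pow 2
    unfold ev
    refine tendsto_finsetSum _ fun k hk => ?_
    exact ((Complex.continuous_ofReal.tendsto _).comp
      (hlim k (by simpa [Nat.lt_succ_iff] using hk))).mul_const _
  have h3 := le_of_tendsto_of_tendsto' h1 h2 fun i => lower2 (hA i) hz0
  have h4 : 0 < ‖z‖ + z.re := by
    have h5 : |z.re| < ‖z‖ := by
      refine lt_of_le_of_ne (Complex.abs_re_le_norm z) fun h => ?_
      exact hz.ne' (Complex.abs_re_eq_norm.1 h)
    have := (abs_lt.1 h5).1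
    linarith
  obtain ⟨k0, hk0, hBk0⟩ := hB
  have h5 : 0 < ∑ k ∈ range (n + 1), B k * ‖z‖ ^ k := by
    refine sum_pos' (fun k hk => mul_nonneg (hB0 k (by simpa [Nat.lt_succ_iff] using hk))
      (by positivity)) ⟨k0, by simpa [Nat.lt_succ_iff] using hk0, by positivity⟩
  have h6 : 0 < ((‖z‖ + z.re) / (2 * ‖z‖)) ^ n * (∑ k ∈ range (n + 1), B k * ‖z‖ ^ k) ^ 2 := by
    positivity
  intro h7
  rw [h7, norm_zero] at h3
  norm_num at h3
  linarith

lemma sum_supp {M : Type*} [AddCommMonoid M] {n l m : ℕ} (h : l + m ≤ n) (f : ℕ → M)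
    (h1 : ∀ k < l, f k = 0) (h2 : ∀ k, l + m < k → k ≤ n → f k = 0) :
    ∑ k ∈ range (n + 1), f k = ∑ j ∈ range (m + 1), f (l + j) := by
  have h3 : ∑ j ∈ range (m + 1), f (l + j) = ∑ k ∈ Ico l (l + m + 1), f k := by
    rw [sum_Ico_eq_sum_range]
    congr 1
    congr 1
    omega
  rw [h3]
  symm
  refine sum_subset ?_ ?_
  · intro k hk
    rw [mem_Ico] at hk
    rw [mem_range]
    omega
  · intro k hk hk2
    rw [mem_range] at hk
    rw [mem_Ico] at hk2
    rcases Nat.lt_or_ge k l with h4 | h4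
    · exact h1 k h4
    · exact h2 k (by omega) (by omega)

/-- the supported part of a limit is `PF` -/
lemma pf_of_lim {n l m : ℕ} (h : l + m ≤ n) {A : ℕ → ℕ → ℝ} (hA : ∀ i, PF n (A i)) {B : ℕ → ℝ}
    (hlim : ∀ k ≤ n, Tendsto (fun i => A i k) atTop (𝓝 (B k)))
    (h1 : ∀ k < l, B k = 0) (h2 : ∀ j ≤ m, 0 < B (l + j)) (h3 : ∀ k, l + m < k → k ≤ n → B k = 0) :
    PF m (fun j => B (l + j)) := by
  refine ⟨h2, fun z hz h0 => ?_⟩
  refine ev_ne_zero_of_lim hA hlim ⟨l, by omega, h2 0 (Nat.zero_le _)⟩ hz ?_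
  unfold ev at h0 ⊢
  rw [sum_supp h _ (fun k hk => by rw [h1 k hk]; simp) (fun k hk hk2 => by rw [h3 k hk hk2]; simp)]
  have : ∑ j ∈ range (m + 1), (B (l + j) : ℂ) * z ^ (l + j) =
      z ^ l * ∑ j ∈ range (m + 1), (B (l + j) : ℂ) * z ^ j := by
    rw [mul_sum]
    refine sum_congr rfl fun j _ => ?_
    rw [pow_add]
    ring
  rw [this, h0, mul_zero]

end Pool.Agent.TP34
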