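import Mathlib
import Pool.Agent.TP34.Alt

/-!
Compactness: real-rooted polynomials whose powers have few sign changes accumulate at a touch point.
-/

open Polynomial Finset Filter Topology

namespace Pool.Agent.TP34

open Pool.Agent.H62LR

/-- Newton's inequality (weak form) -/
lemma PF.lc {n : ℕ} {a : ℕ → ℝ} (h : PF n a) {k : ℕ} (hk : k + 2 ≤ n) :
    a k * a (k + 2) ≤ a (k + 1) ^ 2 := by
  have hms : MS n (fun k => a k / (n.choose k : ℝ)) := by
    refine h.congr (fun k hk => ?_)
    have := (choose_pos' hk).ne'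
    field_simp
  have h3 := hms.newton hk
  have p0 := h.1 k (by omega)
  have p1 := h.1 (k + 1) (by omega)
  have p2 := h.1 (k + 2) (by omega)
  have c0 := choose_pos' (show k ≤ n by omega)
  have c1 := choose_pos' (show k + 1 ≤ n by omega)
  have c2 := choose_pos' (show k + 2 ≤ n by omega)
  rw [div_mul_div_comm, div_pow, div_le_div_iff₀ (mul_pos c0 c2) (pow_pos c1 2)] at h3
  have h4 : ((n.choose k : ℝ) * (n.choose (k + 2) : ℝ)) ≤ (n.choose (k + 1) : ℝ) ^ 2 := by
    have h5 := Nat.choose_succ_right_eq n k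
    have h6 := Nat.choose_succ_right_eq n (k + 1)
    have h7 : (n.choose (k + 1) : ℝ) * (k + 1) = n.choose k * ((n : ℝ) - k) := by
      rw [← Nat.cast_sub (by omega : k ≤ n)]
      exact_mod_cast h5
    have h8 : (n.choose (k + 2) : ℝ) * (k + 2) = n.choose (k + 1) * ((n : ℝ) - (k + 1)) := by
      have : ((n - (k + 1) : ℕ) : ℝ) = (n : ℝ) - (k + 1) := by
        rw [Nat.cast_sub (by omega)]
        push_cast
        ring
      rw [← this]
      have h9 : n.choose (k + 1 + 1) * (k + 1 + 1) = n.choose (k + 1) * (n - (k + 1)) := h6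
      exact_mod_cast h9
    have hnk : (k : ℝ) + 2 ≤ n := by exact_mod_cast hk
    have hk0 : (0 : ℝ) ≤ k := Nat.cast_nonneg k
    have e1 : (n.choose k : ℝ) * (n.choose (k + 2) : ℝ) * (((n : ℝ) - k) * (k + 2)) =
        (n.choose (k + 1) : ℝ) ^ 2 * ((k + 1) * ((n : ℝ) - (k + 1))) := by
      calc (n.choose k : ℝ) * (n.choose (k + 2) : ℝ) * (((n : ℝ) - k) * (k + 2)) =
          (n.choose k * ((n : ℝ) - k)) * (n.choose (k + 2) * (k + 2)) := by ring
        _ = _ := by rw [← h7, h8]; ring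
    have e2 : (k + 1) * ((n : ℝ) - (k + 1)) ≤ ((n : ℝ) - k) * (k + 2) := by nlinarith
    have e3 : 0 < ((n : ℝ) - k) * (k + 2) := by
      apply mul_pos <;> linarith
    have e4 : (n.choose k : ℝ) * (n.choose (k + 2) : ℝ) * (((n : ℝ) - k) * (k + 2)) ≤
        (n.choose (k + 1) : ℝ) ^ 2 * (((n : ℝ) - k) * (k + 2)) := by
      rw [e1]
      exact mul_le_mul_of_nonneg_left e2 (sq_nonneg _)
    exact le_of_mul_le_mul_right e4 e3
  have h6 : (a k * a (k + 2)) * ((n.choose k : ℝ) * (n.choose (k + 2) : ℝ)) ≤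
      a (k + 1) ^ 2 * ((n.choose k : ℝ) * (n.choose (k + 2) : ℝ)) := by
    refine le_trans ?_ h3
    have := mul_le_mul_of_nonneg_left h4 (mul_pos p0 p2).le
    linarith
  exact le_of_mul_le_mul_right h6 (mul_pos c0 c2)

/-- ratio -/
noncomputable def tt (a : ℕ → ℝ) (k : ℕ) : ℝ := a k / a (k + 1)

/-- normalised coefficient -/
noncomputable def AA (n : ℕ) (a : ℕ → ℝ) (l k : ℕ) : ℝ :=
  if l < n ∧ k ≤ n then a k * tt a l ^ k / (a l * tt a l ^ l) else 0

section facts
variable {n : ℕ} {a : ℕ → ℝ} (h : PF n a)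
include h

lemma tt_pos {l : ℕ} (hl : l < n) : 0 < tt a l := div_pos (h.1 l hl.le) (h.1 (l + 1) hl)

lemma tt_succ_le {l : ℕ} (hl : l + 1 < n) : tt a l ≤ tt a (l + 1) := by
  unfold tt
  rw [div_le_div_iff₀ (h.1 _ (by omega)) (h.1 _ (by omega))]
  have := PF.lc h (k := l) (by omega)
  calc a l * a (l + 1 + 1) ≤ a (l + 1) ^ 2 := this
    _ = _ := by ring

lemma tt_mono {l l' : ℕ} (hll : l ≤ l') (hl : l' < n) : tt a l ≤ tt a l' := by
  induction l', hll using Nat.le_induction with
  | base => exact le_rfl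
  | succ l' _ ih => exact (ih (by omega)).trans (tt_succ_le h hl)

omit h in
lemma AA_eq {l k : ℕ} (hl : l < n) (hk : k ≤ n) : AA n a l k = a k * tt a l ^ k / (a l * tt a l ^ l) := by
  rw [AA, if_pos ⟨hl, hk⟩]

lemma AA_pos {l k : ℕ} (hl : l < n) (hk : k ≤ n) : 0 < AA n a l k := by
  rw [AA_eq hl hk]
  have := tt_pos h hl
  have := h.1 k hk
  have := h.1 l hl.le
  positivity

lemma AA_self {l : ℕ} (hl : l < n) : AA n a l l = 1 := by
  rw [AA_eq hl hl.le]
  have := tt_pos h hl
  have := h.1 l hl.le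
  exact div_self (by positivity)

lemma AA_step {l k : ℕ} (hl : l < n) (hk : k < n) : AA n a l k * tt a l = AA n a l (k + 1) * tt a k := by
  rw [AA_eq hl hk.le, AA_eq hl hk]
  have h1 := tt_pos h hl
  have h2 := h.1 l hl.le
  have h3 := h.1 (k + 1) hk
  have h4 : tt a k = a k / a (k + 1) := rfl
  rw [h4, pow_succ]
  field_simp

lemma AA_succ {l : ℕ} (hl : l < n) : AA n a l (l + 1) = 1 := by
  have h1 := AA_step h hl hl
  rw [AA_self h hl, one_mul] at h1
  have h2 := tt_pos h hl
  have h3 : (AA n a l (l + 1) - 1) * tt a l = 0 := by linarith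
  rcases mul_eq_zero.1 h3 with h4 | h4
  · linarith
  · exact absurd h4 h2.ne'

lemma AA_dec {l k : ℕ} (hl : l < n) (hk : k < n) (hlk : l ≤ k) : AA n a l (k + 1) ≤ AA n a l k := by
  have h1 := AA_step h hl hk
  have h2 := tt_mono h hlk hk
  have h3 := tt_pos h hl
  have h4 := AA_pos h hl (show k + 1 ≤ n from hk)
  have h5 := tt_pos h hk
  by_contra hcon
  push Not at hcon
  have h6 : AA n a l k * tt a l < AA n a l (k + 1) * tt a k := by
    calc AA n a l k * tt a l < AA n a l (k + 1) * tt a l := mul_lt_mul_of_pos_right hcon h3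
      _ ≤ AA n a l (k + 1) * tt a k := mul_le_mul_of_nonneg_left h2 h4.le
  linarith

lemma AA_inc {l k : ℕ} (hl : l < n) (hlk : k < l) : AA n a l k ≤ AA n a l (k + 1) := by
  have hk : k < n := by omega
  have h1 := AA_step h hl hk
  have h2 := tt_mono h hlk.le hl
  have h3 := tt_pos h hl
  have h4 := AA_pos h hl hk.le
  have h5 := tt_pos h hk
  by_contra hcon
  push Not at hcon
  have h6 : AA n a l (k + 1) * tt a k < AA n a l k * tt a l := by
    calc AA n a l (k + 1) * tt a k < AA n a l k * tt a k := mul_lt_mul_of_pos_right hcon h5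
      _ ≤ AA n a l k * tt a l := mul_le_mul_of_nonneg_left h2 h4.le
  linarith

lemma AA_le_one {l k : ℕ} (hl : l < n) (hk : k ≤ n) : AA n a l k ≤ 1 := by
  rcases Nat.le_total l k with hlk | hlk
  · induction k, hlk using Nat.le_induction with
    | base => rw [AA_self h hl]
    | succ k hlk ih => exact (AA_dec h hl hk hlk).trans (ih (by omega))
  · have h1 : ∀ d ≤ l, AA n a l (l - d) ≤ 1 := by
      intro d
      induction d with
      | zero => intro _; rw [Nat.sub_zero, AA_self h hl]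
      | succ d ih =>
        intro hd
        have h2 := AA_inc h hl (show l - (d + 1) < l by omega)
        have h3 : l - (d + 1) + 1 = l - d := by omega
        rw [h3] at h2
        exact h2.trans (ih (by omega))
    have h2 := h1 (l - k) (by omega)
    have h3 : l - (l - k) = k := by omega
    rwa [h3] at h2

/-- `A_{l-1,j} = A_{l,j} * (A_{l,l-1})^(j-l)` -/
lemma AA_prev {l j : ℕ} (hl : l + 1 < n) (hj : j ≤ n) (hlj : l + 1 < j) :
    AA n a l j = AA n a (l + 1) j * AA n a (l + 1) l ^ (j - (l + 1)) := by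
  have h1 := tt_pos h (show l < n by omega)
  have h2 := tt_pos h hl
  have h3 : AA n a (l + 1) l * tt a (l + 1) = tt a l := by
    have := AA_step h hl (show l < n by omega)
    rw [AA_self h hl, one_mul] at this
    exact this
  have h4 : AA n a (l + 1) l = tt a l / tt a (l + 1) := by
    rw [eq_div_iff h2.ne']
    exact h3
  rw [h4, AA_eq (by omega) hj, AA_eq hl hj, div_pow]
  have h5 : a l = tt a l * a (l + 1) := by
    unfold tt
    rw [div_mul_cancel₀]
    exact (h.1 _ (by omega)).ne'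
  obtain ⟨d, rfl⟩ : ∃ d, j = l + 1 + d := ⟨j - (l + 1), by omega⟩
  rw [Nat.add_sub_cancel_left, h5]
  have h6 := h.1 (l + 1) hl.le
  rw [pow_add, pow_add (tt a (l + 1)), pow_succ]
  field_simp

/-- the sum in the normalised variable -/
lemma sum_norm {l : ℕ} (hl : l < n) (s y : ℝ) :
    ∑ k ∈ range (n + 1), a k ^ s * (-(y * tt a l ^ s)) ^ k =
      (a l * tt a l ^ l) ^ s * ∑ k ∈ range (n + 1), AA n a l k ^ s * (-y) ^ k := by
  rw [mul_sum]
  refine sum_congr rfl fun k hk => ?_
  have hk' : k ≤ n := by simpa [Nat.lt_succ_iff] using hk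
  have h1 := tt_pos h hl
  have h2 := h.1 l hl.le
  have h3 := h.1 k hk'
  rw [← mul_assoc, ← Real.mul_rpow (by positivity) (AA_pos h hl hk').le, AA_eq hl hk']
  rw [mul_div_cancel₀ _ (by positivity), Real.mul_rpow h3.le (by positivity)]
  have h4 : (tt a l ^ k) ^ s = (tt a l ^ s) ^ k := by
    rw [← Real.rpow_natCast, ← Real.rpow_mul h1.le, mul_comm, Real.rpow_mul h1.le, Real.rpow_natCast]
  rw [h4]
  have h5 : -(y * tt a l ^ s) = (-y) * tt a l ^ s := by ring
  rw [h5, mul_pow]
  ring

end facts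

end Pool.Agent.TP34
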