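import Mathlib
import Pool.Agent.TP34.Compact

/-!
The compactness step.
-/

open Polynomial Finset Filter Topology

namespace Pool.Agent.TP34

open Pool.Agent.H62LR

lemma AA_pf {n : ℕ} {a : ℕ → ℝ} (h : PF n a) {l : ℕ} (hl : l < n) : PF n (AA n a l) := by
  have h1 := tt_pos h hl
  have h2 := h.1 l hl.le
  refine ((h.scale h1).const_mul (c := (a l * tt a l ^ l)⁻¹) (by positivity)).congr fun k hk => ?_
  rw [AA_eq hl hk]
  ring

theorem compact_step {n : ℕ} {r : ℝ} (hr : 0 < r)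
    (hS : ∀ m ≤ n, ∀ a : ℕ → ℝ, PF m a → Alt m (fun k => a k ^ r))
    (a : ℕ → ℕ → ℝ) (s : ℕ → ℝ) (ha : ∀ i, PF n (a i)) (hs : Tendsto s atTop (𝓝 r)) :
    ∃ i, Alt n (fun k => a i k ^ s i) := by
  rcases Nat.eq_zero_or_pos n with hn0 | hn
  · subst hn0
    refine ⟨0, fun _ => 1, by norm_num, fun i hi => by omega, fun i hi => ?_⟩
    rw [Nat.le_zero] at hi
    subst hi
    simp only [pow_zero, zero_add, range_one, sum_singleton, mul_one, one_mul]
    exact Real.rpow_pos_of_pos ((ha 0).1 0 le_rfl) _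
  -- compactness
  have hK : IsCompact (Set.pi Set.univ fun _ : ℕ => Set.pi Set.univ fun _ : ℕ => Set.Icc (0 : ℝ) 1) :=
    isCompact_univ_pi fun _ => isCompact_univ_pi fun _ => isCompact_Icc
  obtain ⟨L, hLmem, φ, hφ, hlim0⟩ := hK.tendsto_subseq (x := fun i => AA n (a i)) (fun i => by
    intro l _ k _
    by_cases hlk : l < n ∧ k ≤ n
    · exact ⟨(AA_pos (ha i) hlk.1 hlk.2).le, AA_le_one (ha i) hlk.1 hlk.2⟩
    · rw [AA, if_neg hlk]
      exact ⟨le_rfl, zero_le_one⟩)
  have hlim : ∀ l k, Tendsto (fun i => AA n (a (φ i)) l k) atTop (𝓝 (L l k)) := by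
    intro l k
    rw [tendsto_pi_nhds] at hlim0
    have h1 := hlim0 l
    rw [tendsto_pi_nhds] at h1
    exact h1 k
  have hs' : Tendsto (fun i => s (φ i)) atTop (𝓝 r) := hs.comp hφ.tendsto_atTop
  -- facts on the limit
  have hL0 : ∀ l k, 0 ≤ L l k := fun l k => (hLmem l (Set.mem_univ _) k (Set.mem_univ _)).1
  have hLself : ∀ l, l < n → L l l = 1 := fun l hl =>
    tendsto_nhds_unique (hlim l l) (by
      simp only [AA_self (ha _) hl]
      exact tendsto_const_nhds)
  have hLsucc : ∀ l, l < n → L l (l + 1) = 1 := fun l hl =>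
    tendsto_nhds_unique (hlim l (l + 1)) (by
      simp only [AA_succ (ha _) hl]
      exact tendsto_const_nhds)
  have hLdec : ∀ l k, l < n → k < n → l ≤ k → L l (k + 1) ≤ L l k := fun l k hl hk hlk =>
    le_of_tendsto_of_tendsto' (hlim l (k + 1)) (hlim l k) fun i => AA_dec (ha _) hl hk hlk
  have hLinc : ∀ l k, l < n → k < l → L l k ≤ L l (k + 1) := fun l k hl hk =>
    le_of_tendsto_of_tendsto' (hlim l k) (hlim l (k + 1)) fun i => AA_inc (ha _) hl hk
  have hLprev : ∀ l j, l + 1 < n → j ≤ n → l + 1 < j →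
      L l j = L (l + 1) j * L (l + 1) l ^ (j - (l + 1)) := by
    intro l j hl hj hlj
    refine tendsto_nhds_unique (hlim l j) ?_
    have h1 := (hlim (l + 1) j).mul ((hlim (l + 1) l).pow (j - (l + 1)))
    refine h1.congr fun i => ?_
    exact (AA_prev (ha _) hl hj hlj).symm
  have hLanti : ∀ l, l < n → ∀ k k', l ≤ k → k ≤ k' → k' ≤ n → L l k' ≤ L l k := by
    intro l hl k k' hlk hkk hk'
    induction k', hkk using Nat.le_induction with
    | base => exact le_rfl
    | succ k' hkk ih => exact (hLdec l k' hl hk' (by omega)).trans (ih (by omega))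
  have hLmono : ∀ l, l < n → ∀ k k', k ≤ k' → k' ≤ l → L l k ≤ L l k' := by
    intro l hl k k' hkk hk'
    induction k', hkk using Nat.le_induction with
    | base => exact le_rfl
    | succ k' hkk ih => exact (ih (by omega)).trans (hLinc l k' hl (by omega))
  -- lengths of the blocks
  set m : ℕ → ℕ := fun l => Nat.findGreatest (fun j => 0 < L l (l + j)) (n - l) with hm
  have hm1 : ∀ l, l < n → l + m l ≤ n := by
    intro l hl
    have : m l ≤ n - l := Nat.findGreatest_le _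
    omega
  have hm2 : ∀ l, l < n → 0 < L l (l + m l) := by
    intro l hl
    have h1 : 0 < L l (l + 0) := by rw [add_zero, hLself l hl]; exact one_pos
    exact Nat.findGreatest_spec (P := fun j => 0 < L l (l + j)) (Nat.zero_le (n - l)) h1
  have hm3 : ∀ l, l < n → ∀ j ≤ m l, 0 < L l (l + j) := by
    intro l hl j hj
    exact (hm2 l hl).trans_le (hLanti l hl _ _ (by omega) (by omega) (hm1 l hl))
  have hm4 : ∀ l, l < n → ∀ k, l + m l < k → k ≤ n → L l k = 0 := by
    intro l hl k hk1 hk2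
    have h1 : ¬ 0 < L l (l + (k - l)) :=
      Nat.findGreatest_is_greatest (P := fun j => 0 < L l (l + j)) (n := n - l) (k := k - l)
        (by change m l < k - l; omega) (by omega)
    have h2 : l + (k - l) = k := by omega
    rw [h2] at h1
    exact le_antisymm (not_lt.1 h1) (hL0 l k)
  have hm5 : ∀ l, l < n → ∀ k, l ≤ k → k ≤ n → 0 < L l k → k ≤ l + m l := by
    intro l hl k _ hk2 hk3
    by_contra hcon
    rw [hm4 l hl k (by omega) hk2] at hk3
    exact lt_irrefl _ hk3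
  -- limit polynomials of the blocks
  have hY : ∀ l, l < n → (∀ k < l, L l k = 0) → ∃ y : ℕ → ℝ, 0 < y 0 ∧ (∀ i < m l, y i < y (i + 1)) ∧
      ∀ i ≤ m l, 0 < (-1 : ℝ) ^ i * ∑ k ∈ range (m l + 1), L l (l + k) ^ r * (-(y i)) ^ k := by
    intro l hl hst
    have h1 : PF (m l) (fun j => L l (l + j)) :=
      pf_of_lim (hm1 l hl) (fun i => AA_pf (ha (φ i)) hl) (fun k _ => hlim l k) hst (hm3 l hl) (hm4 l hl)
    have h2 : m l ≤ n := by have := hm1 l hl; omega
    exact hS (m l) h2 _ h1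
  choose! Y hY0 hY1 hY2 using hY
  have hYpos : ∀ l, l < n → (∀ k < l, L l k = 0) → ∀ p ≤ m l, 0 < Y l p := by
    intro l hl hst p hp
    exact (hY0 l hl hst).trans_le (y_mono (hY1 l hl hst) (Nat.zero_le p) hp)
  -- starting index of the block of `j`
  have hex : ∀ j, 1 ≤ j → j ≤ n → ∃ l, l < j ∧ 0 < L l j := by
    intro j hj1 hj2
    refine ⟨j - 1, by omega, ?_⟩
    have h1 := hLsucc (j - 1) (by omega)
    have h2 : j - 1 + 1 = j := by omega
    rw [h2] at h1
    rw [h1]
    exact one_pos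
  classical
  have hlo' : ∀ j, 1 ≤ j → j ≤ n → ∃ l, (l < j ∧ 0 < L l j) ∧ ∀ l' < l, ¬ (l' < j ∧ 0 < L l' j) :=
    fun j h1 h2 => ⟨Nat.find (hex j h1 h2), Nat.find_spec (hex j h1 h2),
      fun l' hl' => Nat.find_min (hex j h1 h2) hl'⟩
  choose! lo' hlo1' hlo2' using hlo'
  set lo : ℕ → ℕ := fun j => if j = 0 then 0 else lo' j with hlodef
  have hlo0 : lo 0 = 0 := by simp [hlodef]
  have hloj : ∀ j, 1 ≤ j → lo j = lo' j := fun j hj => by
    rw [hlodef]
    simp only
    rw [if_neg (by omega)]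
  have hlo1 : ∀ j, 1 ≤ j → j ≤ n → lo j < j ∧ 0 < L (lo j) j := fun j h1 h2 => by
    rw [hloj j h1]; exact hlo1' j h1 h2
  have hlo2 : ∀ j, 1 ≤ j → j ≤ n → ∀ l' < lo j, L l' j = 0 := by
    intro j h1 h2 l' hl'
    rw [hloj j h1] at hl'
    have h3 := hlo2' j h1 h2 l' hl'
    have h4 := (hlo1' j h1 h2).1
    by_contra hcon
    exact h3 ⟨by omega, lt_of_le_of_ne (hL0 _ _) (Ne.symm hcon)⟩
  have hlon : ∀ j ≤ n, lo j < n := by
    intro j hj
    rcases Nat.eq_zero_or_pos j with h | h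
    · rw [h, hlo0]; exact hn
    · have := (hlo1 j h hj).1
      omega
  have hloj : ∀ j ≤ n, lo j ≤ j := by
    intro j hj
    rcases Nat.eq_zero_or_pos j with h | h
    · rw [h, hlo0]
    · exact (hlo1 j h hj).1.le
  have hlopos : ∀ j ≤ n, 0 < L (lo j) j := by
    intro j hj
    rcases Nat.eq_zero_or_pos j with h | h
    · rw [h, hlo0, hLself 0 hn]; exact one_pos
    · exact (hlo1 j h hj).2
  have hlom : ∀ j ≤ n, j ≤ lo j + m (lo j) := fun j hj =>
    hm5 (lo j) (hlon j hj) j (hloj j hj) hj (hlopos j hj)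
  have hst1 : ∀ j ≤ n, ∀ l, lo j = l + 1 → L (l + 1) l = 0 := by
    intro j hj l hl
    have hj1 : 1 ≤ j := by
      rcases Nat.eq_zero_or_pos j with h | h
      · rw [h, hlo0] at hl
        omega
      · exact h
    have h1 := hlo1 j hj1 hj
    have h2 := hlo2 j hj1 hj l (by omega)
    rw [hl] at h1
    rw [hLprev l j (by omega) hj h1.1] at h2
    rcases mul_eq_zero.1 h2 with h3 | h3
    · exact absurd h3 h1.2.ne'
    · exact pow_eq_zero_iff (by omega) |>.1 h3
  have hst : ∀ j ≤ n, ∀ k < lo j, L (lo j) k = 0 := by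
    intro j hj k hk
    obtain ⟨l, hl⟩ := Nat.exists_eq_add_of_lt (show 0 < lo j by omega)
    have hl' : lo j = l + 1 := by omega
    have h1 := hst1 j hj l hl'
    have h2 := hLmono (lo j) (hlon j hj) k l (by omega) (by omega)
    rw [hl'] at h2 ⊢
    rw [h1] at h2
    exact le_antisymm h2 (hL0 _ _)
  -- signs
  have hsign : ∀ j ≤ n, ∀ᶠ i in atTop, 0 < (-1 : ℝ) ^ j *
      ∑ k ∈ range (n + 1), AA n (a (φ i)) (lo j) k ^ s (φ i) * (-(Y (lo j) (j - lo j))) ^ k := by
    intro j hj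
    set l := lo j with hl
    set p := j - l with hp
    have hln : l < n := hlon j hj
    have hpm : p ≤ m l := by
      have := hlom j hj
      rw [← hl] at this
      omega
    have hjp : j = l + p := by
      have := hloj j hj
      omega
    have hstl : ∀ k < l, L l k = 0 := hst j hj
    have h1 : Tendsto (fun i => (-1 : ℝ) ^ j *
        ∑ k ∈ range (n + 1), AA n (a (φ i)) l k ^ s (φ i) * (-(Y l p)) ^ k) atTop
        (𝓝 ((-1 : ℝ) ^ j * ∑ k ∈ range (n + 1), L l k ^ r * (-(Y l p)) ^ k)) := by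
      refine Tendsto.const_mul _ (tendsto_finsetSum _ fun k _ => Tendsto.mul_const _ ?_)
      exact (hlim l k).rpow hs' (Or.inr hr)
    refine h1.eventually_const_lt ?_
    rw [sum_supp (hm1 l hln) (fun k => L l k ^ r * (-(Y l p)) ^ k)
      (fun k hk => by rw [hstl k hk, Real.zero_rpow hr.ne', zero_mul])
      (fun k hk hk2 => by rw [hm4 l hln k hk hk2, Real.zero_rpow hr.ne', zero_mul])]
    have h2 : ∑ q ∈ range (m l + 1), L l (l + q) ^ r * (-(Y l p)) ^ (l + q) =
        (-(Y l p)) ^ l * ∑ q ∈ range (m l + 1), L l (l + q) ^ r * (-(Y l p)) ^ q := by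
      rw [mul_sum]
      refine sum_congr rfl fun q _ => ?_
      rw [pow_add]
      ring
    rw [h2, hjp, pow_add]
    have h3 := hY2 l hln hstl p hpm
    have h4 := hYpos l hln hstl p hpm
    have h5 : (-1 : ℝ) ^ l * (-1) ^ p * ((-(Y l p)) ^ l *
        ∑ q ∈ range (m l + 1), L l (l + q) ^ r * (-(Y l p)) ^ q) =
        (Y l p) ^ l * ((-1) ^ p * ∑ q ∈ range (m l + 1), L l (l + q) ^ r * (-(Y l p)) ^ q) := by
      have h6 : (-(Y l p)) ^ l = (-1) ^ l * (Y l p) ^ l := by rw [← mul_pow]; ring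
      rw [h6]
      have h7 : (-1 : ℝ) ^ l * (-1) ^ l = 1 := by rw [← mul_pow]; norm_num
      calc (-1 : ℝ) ^ l * (-1) ^ p * ((-1) ^ l * Y l p ^ l *
          ∑ q ∈ range (m l + 1), L l (l + q) ^ r * (-(Y l p)) ^ q) =
          ((-1 : ℝ) ^ l * (-1) ^ l) * (Y l p ^ l * ((-1) ^ p *
            ∑ q ∈ range (m l + 1), L l (l + q) ^ r * (-(Y l p)) ^ q)) := by ring
        _ = _ := by rw [h7, one_mul]
    rw [h5]
    exact mul_pos (pow_pos h4 l) h3
  -- order
  have horder : ∀ j < n, ∀ᶠ i in atTop,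
      Y (lo j) (j - lo j) * tt (a (φ i)) (lo j) ^ s (φ i) <
        Y (lo (j + 1)) (j + 1 - lo (j + 1)) * tt (a (φ i)) (lo (j + 1)) ^ s (φ i) := by
    intro j hj
    have hln := hlon j hj.le
    have hln' := hlon (j + 1) hj
    have hstl := hst j hj.le
    have hstl' := hst (j + 1) hj
    have hjm := hlom j hj.le
    have hjm' := hlom (j + 1) hj
    have hlej := hloj j hj.le
    have hlej' := hloj (j + 1) hj
    have hle : lo j ≤ lo (j + 1) := by
      rcases Nat.eq_zero_or_pos j with h | h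
      · rw [h, hlo0]; exact Nat.zero_le _
      · by_contra hcon
        push Not at hcon
        have h1 := hlo2 j h hj.le _ hcon
        have h2 := (hlo1 (j + 1) (by omega) hj).2
        have h3 := hLdec (lo (j + 1)) j hln' hj (by omega)
        linarith
    rcases hle.eq_or_lt with heq | hlt
    · refine Eventually.of_forall fun i => ?_
      rw [← heq]
      refine mul_lt_mul_of_pos_right ?_ (Real.rpow_pos_of_pos (tt_pos (ha _) hln) _)
      have h1 := hY1 (lo j) hln hstl (j - lo j) (by rw [← heq] at hjm'; omega)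
      have h2 : j + 1 - lo j = j - lo j + 1 := by omega
      rw [h2]
      exact h1
    · obtain ⟨l, hl⟩ := Nat.exists_eq_add_of_lt (show 0 < lo (j + 1) by omega)
      have hl' : lo (j + 1) = l + 1 := by omega
      have h0 := hst1 (j + 1) hj l hl'
      rw [hl'] at hln' hstl' hjm' hlej' ⊢
      have h1 : Tendsto (fun i => Y (lo j) (j - lo j) * AA n (a (φ i)) (l + 1) l ^ s (φ i)) atTop (𝓝 0) := by
        have h2 := (hlim (l + 1) l).rpow hs' (Or.inr hr)
        rw [h0, Real.zero_rpow hr.ne'] at h2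
        simpa using h2.const_mul (Y (lo j) (j - lo j))
      have h2 : 0 < Y (l + 1) (j + 1 - (l + 1)) := hYpos (l + 1) hln' hstl' _ (by omega)
      have h3 : ∀ᶠ i in atTop, 0 < s (φ i) := hs'.eventually_const_lt hr
      filter_upwards [h1.eventually_lt_const h2, h3] with i hi hsi
      have h4 := tt_pos (ha (φ i)) hln'
      have h5 := tt_pos (ha (φ i)) hln
      have h6 : tt (a (φ i)) (lo j) ≤ AA n (a (φ i)) (l + 1) l * tt (a (φ i)) (l + 1) := by
        rw [AA_step (ha (φ i)) hln' (show l < n by omega), AA_self (ha (φ i)) hln', one_mul]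
        exact tt_mono (ha (φ i)) (by omega) (by omega)
      have h7 : tt (a (φ i)) (lo j) ^ s (φ i) ≤
          AA n (a (φ i)) (l + 1) l ^ s (φ i) * tt (a (φ i)) (l + 1) ^ s (φ i) := by
        rw [← Real.mul_rpow (AA_pos (ha (φ i)) hln' (by omega)).le h4.le]
        exact Real.rpow_le_rpow h5.le h6 hsi.le
      have h8 : 0 < Y (lo j) (j - lo j) := hYpos (lo j) hln hstl _ (by omega)
      calc Y (lo j) (j - lo j) * tt (a (φ i)) (lo j) ^ s (φ i) ≤
          Y (lo j) (j - lo j) * (AA n (a (φ i)) (l + 1) l ^ s (φ i) * tt (a (φ i)) (l + 1) ^ s (φ i)) :=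
            mul_le_mul_of_nonneg_left h7 h8.le
        _ = (Y (lo j) (j - lo j) * AA n (a (φ i)) (l + 1) l ^ s (φ i)) * tt (a (φ i)) (l + 1) ^ s (φ i) := by
            ring
        _ < _ := mul_lt_mul_of_pos_right hi (Real.rpow_pos_of_pos h4 _)
  -- conclusion
  have hall1 : ∀ᶠ i in atTop, ∀ j ∈ range (n + 1), 0 < (-1 : ℝ) ^ j *
      ∑ k ∈ range (n + 1), AA n (a (φ i)) (lo j) k ^ s (φ i) * (-(Y (lo j) (j - lo j))) ^ k := by
    rw [eventually_all_finset]
    intro j hj
    exact hsign j (by simpa [Nat.lt_succ_iff] using hj)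
  have hall2 : ∀ᶠ i in atTop, ∀ j ∈ range n,
      Y (lo j) (j - lo j) * tt (a (φ i)) (lo j) ^ s (φ i) <
        Y (lo (j + 1)) (j + 1 - lo (j + 1)) * tt (a (φ i)) (lo (j + 1)) ^ s (φ i) := by
    rw [eventually_all_finset]
    intro j hj
    exact horder j (mem_range.1 hj)
  obtain ⟨i, hi1, hi2⟩ := (hall1.and hall2).exists
  refine ⟨φ i, fun j => Y (lo j) (j - lo j) * tt (a (φ i)) (lo j) ^ s (φ i), ?_, ?_, ?_⟩
  · have h1 : 0 < Y (lo 0) (0 - lo 0) := hYpos (lo 0) (hlon 0 (Nat.zero_le _)) (hst 0 (Nat.zero_le _)) _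
      (by omega)
    exact mul_pos h1 (Real.rpow_pos_of_pos (tt_pos (ha _) (hlon 0 (Nat.zero_le _))) _)
  · intro j hj
    exact hi2 j (mem_range.2 hj)
  · intro j hj
    have h1 := hi1 j (mem_range.2 (by omega))
    have h2 := hlon j hj
    beta_reduce
    rw [sum_norm (ha (φ i)) h2]
    have h3 : 0 < (a (φ i) (lo j) * tt (a (φ i)) (lo j) ^ lo j) ^ s (φ i) :=
      Real.rpow_pos_of_pos (mul_pos ((ha (φ i)).1 _ h2.le) (pow_pos (tt_pos (ha (φ i)) h2) _)) _
    calc (0 : ℝ) < (a (φ i) (lo j) * tt (a (φ i)) (lo j) ^ lo j) ^ s (φ i) * ((-1 : ℝ) ^ j *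
        ∑ k ∈ range (n + 1), AA n (a (φ i)) (lo j) k ^ s (φ i) * (-(Y (lo j) (j - lo j))) ^ k) :=
          mul_pos h3 h1
      _ = _ := by ring

end Pool.Agent.TP34
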