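import Mathlib
import Pool.Agent.TP34.Step

/-!
# The touch point

If some real power `r ∈ [2, 3]` of some real-rooted polynomial with positive coefficients does not
have the full number of sign changes, then there is a *first touch point*.
-/

open Polynomial Finset Filter Topology

namespace Pool.Agent.TP34

open Pool.Agent.H62LR

/-- the power `r` preserves real-rootedness in degree `n` -/
def W (n : ℕ) (r : ℝ) : Prop := ∀ b : ℕ → ℝ, PF n b → PF n (fun k => b k ^ r)

/-- the power `r` produces `n` sign changes in degree `n` -/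
def S (n : ℕ) (r : ℝ) : Prop := ∀ b : ℕ → ℝ, PF n b → Alt n (fun k => b k ^ r)

lemma S.w {n : ℕ} {r : ℝ} (h : S n r) : W n r := fun b hb =>
  (h b hb).pf fun k hk => Real.rpow_pos_of_pos (hb.1 k hk) r

/-- A first touch point: `∑ a_k^r x^k` has a multiple zero at `-X`, all `r`-th powers of real-rooted
polynomials of degree `n` are real-rooted, and everything is strict for smaller `n` and for smaller `r`. -/
structure Touch (n : ℕ) (r X : ℝ) (a : ℕ → ℝ) : Prop where
  two_le : 2 ≤ r
  le_three : r ≤ 3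
  pos : 0 < X
  pf : PF n a
  all : W n r
  before : ∀ s, 2 ≤ s → s < r → S n s
  lower : ∀ m < n, ∀ s, 2 ≤ s → s ≤ 3 → S m s
  zero : ∑ k ∈ range (n + 1), a k ^ r * (-X) ^ k = 0
  zero' : ∑ k ∈ range (n + 1), (k : ℝ) * (a k ^ r * (-X) ^ k) = 0

/-- limits in the exponent -/
lemma W.lim {n : ℕ} {r : ℝ} (s : ℕ → ℝ) (hs : Tendsto s atTop (𝓝 r)) (h : ∀ i, W n (s i)) : W n r := by
  intro b hb
  refine ⟨fun k hk => Real.rpow_pos_of_pos (hb.1 k hk) r, fun z hz => ?_⟩
  refine ev_ne_zero_of_lim (A := fun i k => b k ^ s i) (fun i => h i b hb) (fun k hk => ?_)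
    ⟨0, Nat.zero_le _, Real.rpow_pos_of_pos (hb.1 0 (Nat.zero_le _)) r⟩ hz
  exact (tendsto_const_nhds (x := b k)).rpow hs (Or.inl (hb.1 k hk).ne')

/-- **Existence of a first touch point.** -/
theorem exists_touch (h : ∃ n r, 2 ≤ r ∧ r ≤ 3 ∧ ¬ S n r) : ∃ n r X a, Touch n r X a := by
  classical
  set n := Nat.find h with hn
  obtain ⟨r1, hr1, hr1', hr1S⟩ := Nat.find_spec h
  have hlower : ∀ m < n, ∀ s, 2 ≤ s → s ≤ 3 → S m s := by
    intro m hm s hs1 hs2
    by_contra hcon
    exact Nat.find_min h hm ⟨s, hs1, hs2, hcon⟩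
  set B : Set ℝ := {r | 2 ≤ r ∧ r ≤ 3 ∧ ¬ S n r} with hB
  have hBne : B.Nonempty := ⟨r1, hr1, hr1', hr1S⟩
  have hBbdd : BddBelow B := ⟨2, fun r hr => hr.1⟩
  set r := sInf B with hr
  have hr2 : 2 ≤ r := le_csInf hBne fun s hs => hs.1
  have hr3 : r ≤ 3 := (csInf_le hBbdd (show r1 ∈ B from ⟨hr1, hr1', hr1S⟩)).trans hr1'
  have hbefore : ∀ s, 2 ≤ s → s < r → S n s := by
    intro s hs1 hs2
    by_contra hcon
    have := csInf_le hBbdd (show s ∈ B from ⟨hs1, by linarith, hcon⟩)
    linarith
  have hW : W n r := by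
    rcases hr2.eq_or_lt with h2 | h2
    · rw [← h2]
      exact fun b hb => hb.sq
    · refine W.lim (fun i : ℕ => r - (r - 2) / (i + 1)) ?_ fun i => ?_
      · have h3 : Tendsto (fun i : ℕ => (r - 2) / ((i : ℝ) + 1)) atTop (𝓝 0) := by
          have := tendsto_one_div_add_atTop_nhds_zero_nat (𝕜 := ℝ)
          have h4 := this.const_mul (r - 2)
          rw [mul_zero] at h4
          refine h4.congr fun i => ?_
          ring
        have h5 := h3.const_sub r
        rwa [sub_zero] at h5
      · refine (hbefore _ ?_ ?_).w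
        · have h3 : (r - 2) / ((i : ℝ) + 1) ≤ r - 2 := by
            refine div_le_self (by linarith) ?_
            have : (0 : ℝ) ≤ i := Nat.cast_nonneg i
            linarith
          linarith
        · have h3 : 0 < (r - 2) / ((i : ℝ) + 1) := by
            apply div_pos
            · linarith
            · positivity
          linarith
  -- `r` itself is bad
  have hSr : ¬ S n r := by
    intro hSr
    have hex : ∀ i : ℕ, ∃ s, s ∈ B ∧ s < r + 1 / ((i : ℝ) + 1) := by
      intro i
      have h3 : (0 : ℝ) < 1 / ((i : ℝ) + 1) := by positivity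
      obtain ⟨s, hs, hs2⟩ := exists_lt_of_csInf_lt hBne (show sInf B < r + 1 / ((i : ℝ) + 1) by
        rw [← hr]; linarith)
      exact ⟨s, hs, hs2⟩
    choose s hs1 hs2 using hex
    have hslim : Tendsto s atTop (𝓝 r) := by
      have h4 : Tendsto (fun i : ℕ => r + 1 / ((i : ℝ) + 1)) atTop (𝓝 r) := by
        have := (tendsto_one_div_add_atTop_nhds_zero_nat (𝕜 := ℝ)).const_add r
        rwa [add_zero] at this
      exact tendsto_of_tendsto_of_tendsto_of_le_of_le tendsto_const_nhds h4
        (fun i => csInf_le hBbdd (hs1 i)) fun i => (hs2 i).le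
    have hbad : ∀ i, ∃ b, PF n b ∧ ¬ Alt n (fun k => b k ^ s i) := by
      intro i
      have h4 := (hs1 i).2.2
      unfold S at h4
      push Not at h4
      exact h4
    choose b hb1 hb2 using hbad
    obtain ⟨i, hi⟩ := compact_step (n := n) (r := r) (by linarith) (fun m hm a ha => by
      rcases hm.eq_or_lt with h5 | h5
      · subst h5
        exact hSr a ha
      · exact hlower m h5 r hr2 hr3 a ha) b s hb1 hslim
    exact hb2 i hi
  unfold S at hSr
  push Not at hSr
  obtain ⟨a, ha, hna⟩ := hSr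
  have h6 : ∃ x : ℝ, x < 0 ∧ ∑ k ∈ range (n + 1), a k ^ r * x ^ k = 0 ∧
      ∑ k ∈ range (n + 1), (k : ℝ) * (a k ^ r * x ^ k) = 0 := by
    by_contra hcon
    push Not at hcon
    exact hna (alt_of_simple (hW a ha) fun x hx h1 h2 => hcon x hx h1 h2)
  obtain ⟨x, hx, h7, h8⟩ := h6
  refine ⟨n, r, -x, a, hr2, hr3, by linarith, ha, hW, hbefore, hlower, ?_, ?_⟩
  · rw [neg_neg]; exact h7
  · rw [neg_neg]; exact h8

lemma PF.had {n : ℕ} {a b : ℕ → ℝ} (ha : PF n a) (hb : PF n b) : PF n (fun k => a k * b k) := by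
  refine ((ms_choose n le_rfl).apply (ha.comp hb)).congr (fun k hk => ?_)
  have := (choose_pos' hk).ne'
  rw [Real.rpow_one]
  field_simp

/-- **Reduction.** If there is no touch point, all powers `r ≥ 2` preserve real-rootedness. -/
theorem of_no_touch (hno : ∀ n r X a, ¬ Touch n r X a) (n : ℕ) {r : ℝ} (hr : 2 ≤ r) : W n r := by
  have hS : ∀ n r, 2 ≤ r → r ≤ 3 → S n r := by
    intro n r h2 h3
    by_contra hcon
    obtain ⟨n, r, X, a, ht⟩ := exists_touch ⟨n, r, h2, h3, hcon⟩
    exact hno n r X a ht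
  have hj : ∀ j : ℕ, ∀ r : ℝ, 2 ≤ r → r ≤ 3 + j → W n r := by
    intro j
    induction j with
    | zero =>
      intro r h2 h3
      exact (hS n r h2 (by simpa using h3)).w
    | succ j ih =>
      intro r h2 h3
      rcases le_total r 3 with h4 | h4
      · exact (hS n r h2 h4).w
      · intro b hb
        have h5 := ih (r - 1) (by linarith) (by push_cast at h3; linarith) b hb
        refine (PF.had h5 hb).congr fun k hk => ?_
        have h6 := hb.1 k hk
        rw [Real.rpow_sub h6, Real.rpow_one]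
        field_simp
  obtain ⟨j, hj'⟩ := exists_nat_ge (r - 3)
  exact hj j r hr (by linarith)

end Pool.Agent.TP34
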